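import Pool.Agent.Helper61.QT.GoalsP

/-!
# Project QT+ (MP_0ebdb3_gt), packet WAL: the lifts at the walls
-/

set_option autoImplicit false

namespace Pool.Agent.Helper84.QT

open Pool.Agent.Helper61 Pool.Agent.Helper61.QG Pool.Agent.Helper61.QT
open Pool.Agent.Helper61.QS (V En rk R4 IsCurv SecNN Gam dd)
open Pool.Agent.Helper61.QM (Model W2 Mab pol2 act2 o1 o2 rot IsRe IsIm)

theorem im4_add (v w : R4) : im4 (v + w) = im4 v + im4 w := by
  simp only [im4, Prod.fst_add, Prod.snd_add, Prod.mk_add_mk, Complex.ofReal_add, mul_add]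

theorem im4_smul (c : ℝ) (v : R4) : im4 (c • v) = c • im4 v := by
  simp only [im4, Prod.smul_fst, Prod.smul_snd, Prod.smul_mk, smul_eq_mul, Complex.ofReal_mul,
    Complex.real_smul]
  refine Prod.ext (Prod.ext ?_ ?_) (Prod.ext ?_ ?_) <;> dsimp only <;> ring

theorem rp_mem (z : ℝ × ℝ) : rp z ∈ (Mab 0 0).X := by
  constructor
  · change ‖(Real.cos z.1 : ℂ)‖ ^ 2 + ‖(Real.sin z.1 : ℂ)‖ ^ 2 = 1
    rw [Complex.norm_real, Complex.norm_real, Real.norm_eq_abs, Real.norm_eq_abs, sq_abs, sq_abs]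
    exact Real.cos_sq_add_sin_sq z.1
  · change ‖(Real.cos z.2 : ℂ)‖ ^ 2 + ‖(Real.sin z.2 : ℂ)‖ ^ 2 = 1
    rw [Complex.norm_real, Complex.norm_real, Real.norm_eq_abs, Real.norm_eq_abs, sq_abs, sq_abs]
    exact Real.cos_sq_add_sin_sq z.2

theorem mem_T {a b : ℤ} {z : ℝ × ℝ} {u : W2} : u ∈ (Mab a b).T (rp z) ↔
    Real.cos z.1 * u.1.1.re + Real.sin z.1 * u.1.2.re = 0 ∧
      Real.cos z.2 * u.2.1.re + Real.sin z.2 * u.2.2.re = 0 := by
  change ((starRingEnd ℂ) (Real.cos z.1 : ℂ) * u.1.1 +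
    (starRingEnd ℂ) (Real.sin z.1 : ℂ) * u.1.2).re = 0 ∧
    ((starRingEnd ℂ) (Real.cos z.2 : ℂ) * u.2.1 +
    (starRingEnd ℂ) (Real.sin z.2 : ℂ) * u.2.2).re = 0 ↔ _
  rw [Complex.conj_ofReal, Complex.conj_ofReal, Complex.conj_ofReal, Complex.conj_ofReal,
    Complex.add_re, Complex.add_re, Complex.re_ofReal_mul, Complex.re_ofReal_mul,
    Complex.re_ofReal_mul, Complex.re_ofReal_mul]

theorem im4_mem (a b : ℤ) (z : ℝ × ℝ) (w : R4) : im4 w ∈ (Mab a b).T (rp z) := by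
  rw [mem_T]
  simp [im4]

theorem er_mem (a b : ℤ) (z : ℝ × ℝ) : er z ∈ (Mab a b).T (rp z) := by
  rw [mem_T]
  have h1 : ((er z).1.1).re = -Real.sin z.1 := by
    change (-(Real.sin z.1 : ℂ)).re = _
    rw [Complex.neg_re, Complex.ofReal_re]
  have h2 : ((er z).1.2).re = Real.cos z.1 := by
    change ((Real.cos z.1 : ℂ)).re = _
    rw [Complex.ofReal_re]
  have h3 : ((er z).2.1).re = 0 := rfl
  have h4 : ((er z).2.2).re = 0 := rfl
  rw [h1, h2, h3, h4]
  constructor <;> ring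

theorem es_mem (a b : ℤ) (z : ℝ × ℝ) : es z ∈ (Mab a b).T (rp z) := by
  rw [mem_T]
  have h1 : ((es z).2.1).re = -Real.sin z.2 := by
    change (-(Real.sin z.2 : ℂ)).re = _
    rw [Complex.neg_re, Complex.ofReal_re]
  have h2 : ((es z).2.2).re = Real.cos z.2 := by
    change ((Real.cos z.2 : ℂ)).re = _
    rw [Complex.ofReal_re]
  have h3 : ((es z).1.1).re = 0 := rfl
  have h4 : ((es z).1.2).re = 0 := rfl
  rw [h1, h2, h3, h4]
  constructor <;> ring

/-- imaginary vertical vectors satisfying the gauge condition vanish -/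
theorem gauge_zero {a b : ℤ} {z : ℝ × ℝ} {v : R4} (hG : Gauge a b z v)
    (hO : im4 v ∈ (Mab a b).O (rp z)) : v = 0 := by
  obtain ⟨σ, τ, h⟩ := hO
  have h1 := congrArg (fun u : W2 => u.1.1.im) h
  have h2 := congrArg (fun u : W2 => u.1.2.im) h
  have h3 := congrArg (fun u : W2 => u.2.1.im) h
  have h4 := congrArg (fun u : W2 => u.2.2.im) h
  obtain ⟨g1, g2⟩ := hG
  have c1 : ((Real.cos z.1 : ℝ) : ℂ).re = Real.cos z.1 := Complex.ofReal_re _
  have c2 : ((Real.cos z.1 : ℝ) : ℂ).im = 0 := Complex.ofReal_im _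
  have c3 : ((Real.cos z.2 : ℝ) : ℂ).re = Real.cos z.2 := Complex.ofReal_re _
  have c4 : ((Real.cos z.2 : ℝ) : ℂ).im = 0 := Complex.ofReal_im _
  have c5 : ((Real.sin z.1 : ℝ) : ℂ).re = Real.sin z.1 := Complex.ofReal_re _
  have c6 : ((Real.sin z.2 : ℝ) : ℂ).re = Real.sin z.2 := Complex.ofReal_re _
  have e1 : v.1 = σ * Real.cos z.1 + τ * (b * Real.cos z.1) := by
    have e : (im4 v).1.1.im = v.1 := by simp [im4]
    have e' : (σ • o1 a (rp z) + τ • o2 b (rp z)).1.1.im =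
        σ * Real.cos z.1 + τ * (b * Real.cos z.1) := by
      change ((σ : ℝ) • (Complex.I * (Real.cos z.1 : ℂ)) +
        (τ : ℝ) • (Complex.I * (b : ℂ) * (Real.cos z.1 : ℂ))).im = _
      rw [Complex.add_im, Complex.smul_im, Complex.smul_im, mul_assoc, Complex.I_mul_im,
        Complex.I_mul_im, c1, ← Complex.ofReal_intCast, ← Complex.ofReal_mul, Complex.ofReal_re]
      rfl
    rw [← e, ← e']
    exact h1
  have e2 : v.2.1 = σ * Real.sin z.1 := by
    have e : (im4 v).1.2.im = v.2.1 := by simp [im4]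
    have e' : (σ • o1 a (rp z) + τ • o2 b (rp z)).1.2.im = σ * Real.sin z.1 := by
      change ((σ : ℝ) • (Complex.I * (Real.sin z.1 : ℂ)) + (τ : ℝ) • (0 : ℂ)).im = _
      rw [Complex.add_im, Complex.smul_im, Complex.smul_im, Complex.I_mul_im, c5]
      simp
    rw [← e, ← e']
    exact h2
  have e3 : v.2.2.1 = σ * (a * Real.cos z.2) + τ * Real.cos z.2 := by
    have e : (im4 v).2.1.im = v.2.2.1 := by simp [im4]
    have e' : (σ • o1 a (rp z) + τ • o2 b (rp z)).2.1.im =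
        σ * (a * Real.cos z.2) + τ * Real.cos z.2 := by
      change ((σ : ℝ) • (Complex.I * (a : ℂ) * (Real.cos z.2 : ℂ)) +
        (τ : ℝ) • (Complex.I * (Real.cos z.2 : ℂ))).im = _
      rw [Complex.add_im, Complex.smul_im, Complex.smul_im, mul_assoc, Complex.I_mul_im,
        Complex.I_mul_im, c3, ← Complex.ofReal_intCast, ← Complex.ofReal_mul, Complex.ofReal_re]
      rfl
    rw [← e, ← e']
    exact h3
  have e4 : v.2.2.2 = τ * Real.sin z.2 := by
    have e : (im4 v).2.2.im = v.2.2.2 := by simp [im4]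
    have e' : (σ • o1 a (rp z) + τ • o2 b (rp z)).2.2.im = τ * Real.sin z.2 := by
      change ((σ : ℝ) • (0 : ℂ) + (τ : ℝ) • (Complex.I * (Real.sin z.2 : ℂ))).im = _
      rw [Complex.add_im, Complex.smul_im, Complex.smul_im, Complex.I_mul_im, c6]
      simp
    rw [← e, ← e']
    exact h4
  have hs : v.1 ^ 2 + v.2.1 ^ 2 + v.2.2.1 ^ 2 + v.2.2.2 ^ 2 = 0 := by
    have : v.1 ^ 2 + v.2.1 ^ 2 + v.2.2.1 ^ 2 + v.2.2.2 ^ 2 =
        σ * (Real.cos z.1 * v.1 + Real.sin z.1 * v.2.1 + a * Real.cos z.2 * v.2.2.1) +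
        τ * (b * Real.cos z.1 * v.1 + Real.cos z.2 * v.2.2.1 + Real.sin z.2 * v.2.2.2) := by
      calc v.1 ^ 2 + v.2.1 ^ 2 + v.2.2.1 ^ 2 + v.2.2.2 ^ 2 =
          (σ * Real.cos z.1 + τ * (b * Real.cos z.1)) * v.1 + (σ * Real.sin z.1) * v.2.1 +
          (σ * (a * Real.cos z.2) + τ * Real.cos z.2) * v.2.2.1 +
          (τ * Real.sin z.2) * v.2.2.2 := by
            rw [← e1, ← e2, ← e3, ← e4]; ring
        _ = _ := by ring
    rw [this, g1, g2]
    ring
  have f1 : v.1 = 0 := by nlinarith [sq_nonneg v.1, sq_nonneg v.2.1, sq_nonneg v.2.2.1, sq_nonneg v.2.2.2]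
  have f2 : v.2.1 = 0 := by nlinarith [sq_nonneg v.1, sq_nonneg v.2.1, sq_nonneg v.2.2.1, sq_nonneg v.2.2.2]
  have f3 : v.2.2.1 = 0 := by
    nlinarith [sq_nonneg v.1, sq_nonneg v.2.1, sq_nonneg v.2.2.1, sq_nonneg v.2.2.2]
  have f4 : v.2.2.2 = 0 := by
    nlinarith [sq_nonneg v.1, sq_nonneg v.2.1, sq_nonneg v.2.2.1, sq_nonneg v.2.2.2]
  exact Prod.ext f1 (Prod.ext f2 (Prod.ext f3 f4))

/-- the general wall -/
theorem wall {a b : ℤ} {gM : W2 → W2 →L[ℝ] W2 →L[ℝ] ℝ} (hB : IsBase (Mab a b) gM)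
    (hR : IsRotG gM) {z : ℝ × ℝ} {v : R4} (hG : Gauge a b z v) (E E' : W2)
    (hE : E ∈ (Mab a b).T (rp z)) (hE' : E' ∈ (Mab a b).T (rp z)) (pm : R4 → ℝ) (em : R4)
    (hem : ∀ w, pm (w - pm w • em) = 0) (c1 c2 : W2) (κ : ℝ) (hκ : κ * κ = 1)
    (n1 : ‖c1.1.1‖ = 1) (n2 : ‖c1.1.2‖ = 1) (n3 : ‖c1.2.1‖ = 1) (n4 : ‖c1.2.2‖ = 1)
    (m1 : ‖c2.1.1‖ = 1) (m2 : ‖c2.1.2‖ = 1) (m3 : ‖c2.2.1‖ = 1) (m4 : ‖c2.2.2‖ = 1)
    (hP1 : rot c1 (rp z) = rp z) (hP2 : rot c2 (rp z) = rp z)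
    (hc1E : rot c1 E = -E) (hc1E' : rot c1 E' = E')
    (hfix : ∀ w, pm w = 0 → rot c1 (im4 w) = im4 w) (hneg : rot c1 (im4 em) = -im4 em)
    (hc2E : rot c2 E = κ • im4 em) (hc2e : rot c2 (im4 em) = -(κ • E))
    (hO : im4 em ∉ (Mab a b).O (rp z))
    (h : (∀ w, gM (rp z) (E + im4 v) (im4 w) = 0) ∨ (∀ w, gM (rp z) (E' + im4 v) (im4 w) = 0)) :
    pm v = 0 := by
  have hdec : ∀ w : R4, im4 w = im4 (w - pm w • em) + pm w • im4 em := by
    intro w
    rw [← im4_smul, ← im4_add, sub_add_cancel]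
  have hrot1 : ∀ u ∈ (Mab a b).T (rp z), ∀ u' ∈ (Mab a b).T (rp z),
      gM (rp z) (rot c1 u) (rot c1 u') = gM (rp z) u u' := by
    intro u hu u' hu'
    have := hR c1 n1 n2 n3 n4 (rp z) (rp_mem z) u hu u' hu'
    rwa [hP1] at this
  have hrot2 : ∀ u ∈ (Mab a b).T (rp z), ∀ u' ∈ (Mab a b).T (rp z),
      gM (rp z) (rot c2 u) (rot c2 u') = gM (rp z) u u' := by
    intro u hu u' hu'
    have := hR c2 m1 m2 m3 m4 (rp z) (rp_mem z) u hu u' hu'
    rwa [hP2] at this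
  rcases h with h | h
  · have hA : ∀ w, gM (rp z) E (im4 w) = 0 := by
      intro w
      have s1 : gM (rp z) E (im4 (w - pm w • em)) = 0 := by
        have := hrot1 E hE (im4 (w - pm w • em)) (im4_mem a b z _)
        rw [hc1E, hfix _ (hem w), map_neg, ContinuousLinearMap.neg_apply] at this
        linarith
      have s2 : gM (rp z) E (im4 em) = 0 := by
        have h1 := hrot2 E hE (im4 em) (im4_mem a b z _)
        rw [hc2E, hc2e, map_smul, ContinuousLinearMap.smul_apply, map_neg, map_smul] at h1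
        have h2 := hB.symm (rp z) (rp_mem z) E hE (im4 em) (im4_mem a b z _)
        simp only [smul_eq_mul] at h1
        have h3 : κ * -(κ * gM (rp z) (im4 em) E) = -(κ * κ) * gM (rp z) (im4 em) E := by ring
        rw [h3, hκ, h2] at h1
        rw [h2]
        linarith
      rw [hdec w, map_add, s1, map_smul, s2, smul_zero, add_zero]
    have hv : gM (rp z) (im4 v) (im4 v) = 0 := by
      have h1 := h v
      rw [map_add, ContinuousLinearMap.add_apply, hA v, zero_add] at h1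
      exact h1
    have hvO : im4 v ∈ (Mab a b).O (rp z) := by
      by_contra hcon
      have := hB.pos (rp z) (rp_mem z) (im4 v) (im4_mem a b z _) hcon
      rw [hv] at this
      exact lt_irrefl _ this
    have hv0 := gauge_zero hG hvO
    have h2 := hem v
    rw [hv0, zero_sub] at h2
    by_contra hne
    rw [hv0] at hne
    have h3 := hem (-(pm 0 • em))
    rw [h2, zero_smul, sub_zero] at h3
    -- use the value at em
    have h4 := hem em
    have h5 := hfix 0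
    -- pm 0 must vanish: otherwise im4 em would be fixed
    have h6 : rot c1 (im4 (-(pm 0 • em))) = im4 (-(pm 0 • em)) := hfix _ h2
    have h7 : im4 (-(pm 0 • em)) = (-(pm 0)) • im4 em := by
      rw [← neg_smul, im4_smul]
    have hrs : ∀ (c : ℝ) (u : W2), rot c1 (c • u) = c • rot c1 u := by
      intro c u
      simp only [rot, Prod.smul_fst, Prod.smul_snd, Prod.smul_mk, Complex.real_smul]
      refine Prod.ext (Prod.ext ?_ ?_) (Prod.ext ?_ ?_) <;> dsimp only <;> ring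
    rw [h7, hrs, hneg, smul_neg] at h6
    have h8 : (-(pm 0)) • im4 em = 0 := by
      have h9 : (2 : ℝ) • ((-(pm 0)) • im4 em) = 0 := by
        rw [two_smul]
        nth_rewrite 1 [← h6]
        rw [neg_add_cancel]
      rcases smul_eq_zero.1 h9 with h10 | h10
      · norm_num at h10
      · exact h10
    rcases smul_eq_zero.1 h8 with h9 | h9
    · exact hne (neg_eq_zero.1 h9)
    · apply hO
      rw [h9]
      exact ⟨0, 0, by simp⟩
  · have s1 : gM (rp z) E' (im4 em) = 0 := by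
      have := hrot1 E' hE' (im4 em) (im4_mem a b z _)
      rw [hc1E', hneg, map_neg] at this
      linarith
    have s2 : gM (rp z) (im4 (v - pm v • em)) (im4 em) = 0 := by
      have := hrot1 (im4 (v - pm v • em)) (im4_mem a b z _) (im4 em) (im4_mem a b z _)
      rw [hfix _ (hem v), hneg, map_neg] at this
      linarith
    have h1 := h em
    rw [map_add, ContinuousLinearMap.add_apply, s1, zero_add, hdec v, map_add,
      ContinuousLinearMap.add_apply, s2, zero_add, map_smul, ContinuousLinearMap.smul_apply,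
      smul_eq_mul] at h1
    have h2 := hB.pos (rp z) (rp_mem z) (im4 em) (im4_mem a b z _) hO
    rcases mul_eq_zero.1 h1 with h3 | h3
    · exact h3
    · rw [h3] at h2
      exact absurd h2 (lt_irrefl _)

theorem goalWAL : G_WAL := by
  intro a b gM hB hR z v hG h
  have nI : ‖Complex.I‖ = 1 := Complex.norm_I
  have n1 : ‖(1 : ℂ)‖ = 1 := norm_one
  have nm : ‖(-1 : ℂ)‖ = 1 := by rw [norm_neg, norm_one]
  have hcs1 := Real.cos_sq_add_sin_sq z.1
  have hcs2 := Real.cos_sq_add_sin_sq z.2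
  refine ⟨?_, ?_, ?_, ?_⟩
  · intro hz
    have hzC : ((Real.cos z.1 : ℝ) : ℂ) = 0 := by rw [hz]; rfl
    have hk : (-Real.sin z.1) * (-Real.sin z.1) = 1 := by rw [hz] at hcs1; nlinarith
    have hkC : ((Real.sin z.1 : ℝ) : ℂ) * ((Real.sin z.1 : ℝ) : ℂ) = 1 := by
      have : (Real.sin z.1) * (Real.sin z.1) = 1 := by nlinarith
      exact_mod_cast congrArg (fun x : ℝ => (x : ℂ)) this
    refine wall hB hR hG (er z) (es z) (er_mem a b z) (es_mem a b z) (fun w => w.1) (1, 0, 0, 0)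
      (by intro w; simp) ((-1, 1), (1, 1)) ((Complex.I, 1), (1, 1)) (-Real.sin z.1) hk
      nm n1 n1 n1 nI n1 n1 n1 ?_ ?_ ?_ ?_ ?_ ?_ ?_ ?_ ?_ h
    · refine Prod.ext (Prod.ext ?_ ?_) (Prod.ext ?_ ?_) <;> simp [rot, rp, hz]
    · refine Prod.ext (Prod.ext ?_ ?_) (Prod.ext ?_ ?_) <;> simp [rot, rp, hz]
    · refine Prod.ext (Prod.ext ?_ ?_) (Prod.ext ?_ ?_) <;> simp [rot, er, hz]
    · refine Prod.ext (Prod.ext ?_ ?_) (Prod.ext ?_ ?_) <;> simp [rot, es]
    · intro w hw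
      have hw' : w.1 = 0 := hw
      refine Prod.ext (Prod.ext ?_ ?_) (Prod.ext ?_ ?_) <;> simp [rot, im4, hw']
    · refine Prod.ext (Prod.ext ?_ ?_) (Prod.ext ?_ ?_) <;> simp [rot, im4]
    · refine Prod.ext (Prod.ext ?_ ?_) (Prod.ext ?_ ?_) <;> simp [rot, im4, er, hz]
      ring
    · refine Prod.ext (Prod.ext ?_ ?_) (Prod.ext ?_ ?_) <;> simp [rot, im4, er, hz]
      rw [← Complex.ofReal_sin, hkC]
    · rintro ⟨σ, τ, he⟩
      have := congrArg (fun u : W2 => u.1.1) he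
      simp [im4, o1, o2, rp, hz] at this
  · intro hz
    have hk : (Real.cos z.1) * (Real.cos z.1) = 1 := by rw [hz] at hcs1; nlinarith
    have hkC : ((Real.cos z.1 : ℝ) : ℂ) * ((Real.cos z.1 : ℝ) : ℂ) = 1 := by
      exact_mod_cast congrArg (fun x : ℝ => (x : ℂ)) hk
    refine wall hB hR hG (er z) (es z) (er_mem a b z) (es_mem a b z) (fun w => w.2.1) (0, 1, 0, 0)
      (by intro w; simp) ((1, -1), (1, 1)) ((1, Complex.I), (1, 1)) (Real.cos z.1) hk
      n1 nm n1 n1 n1 nI n1 n1 ?_ ?_ ?_ ?_ ?_ ?_ ?_ ?_ ?_ h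
    · refine Prod.ext (Prod.ext ?_ ?_) (Prod.ext ?_ ?_) <;> simp [rot, rp, hz]
    · refine Prod.ext (Prod.ext ?_ ?_) (Prod.ext ?_ ?_) <;> simp [rot, rp, hz]
    · refine Prod.ext (Prod.ext ?_ ?_) (Prod.ext ?_ ?_) <;> simp [rot, er, hz]
    · refine Prod.ext (Prod.ext ?_ ?_) (Prod.ext ?_ ?_) <;> simp [rot, es]
    · intro w hw
      have hw' : w.2.1 = 0 := hw
      refine Prod.ext (Prod.ext ?_ ?_) (Prod.ext ?_ ?_) <;> simp [rot, im4, hw']
    · refine Prod.ext (Prod.ext ?_ ?_) (Prod.ext ?_ ?_) <;> simp [rot, im4]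
    · refine Prod.ext (Prod.ext ?_ ?_) (Prod.ext ?_ ?_) <;> simp [rot, im4, er, hz]
      ring
    · refine Prod.ext (Prod.ext ?_ ?_) (Prod.ext ?_ ?_) <;> simp [rot, im4, er, hz]
      rw [← Complex.ofReal_cos, hkC]
    · rintro ⟨σ, τ, he⟩
      have := congrArg (fun u : W2 => u.1.2) he
      simp [im4, o1, o2, rp, hz] at this
  · intro hz
    have hk : (-Real.sin z.2) * (-Real.sin z.2) = 1 := by rw [hz] at hcs2; nlinarith
    have hkC : ((Real.sin z.2 : ℝ) : ℂ) * ((Real.sin z.2 : ℝ) : ℂ) = 1 := by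
      have : (Real.sin z.2) * (Real.sin z.2) = 1 := by nlinarith
      exact_mod_cast congrArg (fun x : ℝ => (x : ℂ)) this
    refine wall hB hR hG (es z) (er z) (es_mem a b z) (er_mem a b z) (fun w => w.2.2.1) (0, 0, 1, 0)
      (by intro w; simp) ((1, 1), (-1, 1)) ((1, 1), (Complex.I, 1)) (-Real.sin z.2) hk
      n1 n1 nm n1 n1 n1 nI n1 ?_ ?_ ?_ ?_ ?_ ?_ ?_ ?_ ?_ h.symm
    · refine Prod.ext (Prod.ext ?_ ?_) (Prod.ext ?_ ?_) <;> simp [rot, rp, hz]
    · refine Prod.ext (Prod.ext ?_ ?_) (Prod.ext ?_ ?_) <;> simp [rot, rp, hz]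
    · refine Prod.ext (Prod.ext ?_ ?_) (Prod.ext ?_ ?_) <;> simp [rot, es, hz]
    · refine Prod.ext (Prod.ext ?_ ?_) (Prod.ext ?_ ?_) <;> simp [rot, er]
    · intro w hw
      have hw' : w.2.2.1 = 0 := hw
      refine Prod.ext (Prod.ext ?_ ?_) (Prod.ext ?_ ?_) <;> simp [rot, im4, hw']
    · refine Prod.ext (Prod.ext ?_ ?_) (Prod.ext ?_ ?_) <;> simp [rot, im4]
    · refine Prod.ext (Prod.ext ?_ ?_) (Prod.ext ?_ ?_) <;> simp [rot, im4, es, hz]
      ring
    · refine Prod.ext (Prod.ext ?_ ?_) (Prod.ext ?_ ?_) <;> simp [rot, im4, es, hz]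
      rw [← Complex.ofReal_sin, hkC]
    · rintro ⟨σ, τ, he⟩
      have := congrArg (fun u : W2 => u.2.1) he
      simp [im4, o1, o2, rp, hz] at this
  · intro hz
    have hk : (Real.cos z.2) * (Real.cos z.2) = 1 := by rw [hz] at hcs2; nlinarith
    have hkC : ((Real.cos z.2 : ℝ) : ℂ) * ((Real.cos z.2 : ℝ) : ℂ) = 1 := by
      exact_mod_cast congrArg (fun x : ℝ => (x : ℂ)) hk
    refine wall hB hR hG (es z) (er z) (es_mem a b z) (er_mem a b z) (fun w => w.2.2.2) (0, 0, 0, 1)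
      (by intro w; simp) ((1, 1), (1, -1)) ((1, 1), (1, Complex.I)) (Real.cos z.2) hk
      n1 n1 n1 nm n1 n1 n1 nI ?_ ?_ ?_ ?_ ?_ ?_ ?_ ?_ ?_ h.symm
    · refine Prod.ext (Prod.ext ?_ ?_) (Prod.ext ?_ ?_) <;> simp [rot, rp, hz]
    · refine Prod.ext (Prod.ext ?_ ?_) (Prod.ext ?_ ?_) <;> simp [rot, rp, hz]
    · refine Prod.ext (Prod.ext ?_ ?_) (Prod.ext ?_ ?_) <;> simp [rot, es, hz]
    · refine Prod.ext (Prod.ext ?_ ?_) (Prod.ext ?_ ?_) <;> simp [rot, er]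
    · intro w hw
      have hw' : w.2.2.2 = 0 := hw
      refine Prod.ext (Prod.ext ?_ ?_) (Prod.ext ?_ ?_) <;> simp [rot, im4, hw']
    · refine Prod.ext (Prod.ext ?_ ?_) (Prod.ext ?_ ?_) <;> simp [rot, im4]
    · refine Prod.ext (Prod.ext ?_ ?_) (Prod.ext ?_ ?_) <;> simp [rot, im4, es, hz]
      ring
    · refine Prod.ext (Prod.ext ?_ ?_) (Prod.ext ?_ ?_) <;> simp [rot, im4, es, hz]
      rw [← Complex.ofReal_cos, hkC]
    · rintro ⟨σ, τ, he⟩
      have := congrArg (fun u : W2 => u.2.2) he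
      simp [im4, o1, o2, rp, hz] at this

end Pool.Agent.Helper84.QT
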